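import Pool.Agent.Helper93.HZ.Spec2

/-!
# hz_mods.RSC: (SC) for the resolved complex
-/

set_option autoImplicit false

open MulAction Pointwise

namespace Pool.Agent.Helper93.HZ

section fields

variable {U : Type} {T : SimpleGraph U} {N N' : U → U}

theorem rsc_back (hN : IsField T N) {u w : U} (h : T.Adj u w) (hn : N u ≠ w) : N w = u := by
  by_contra h'
  exact hn ((hN.2 u w h).2 h')

theorem rsc_adj (hN : IsField T N) {u : U} (hu : N u ≠ u) : T.Adj u (N u) := by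
  rcases hN.1 u with h | h
  · exact absurd h hu
  · exact h

theorem rsc_ne (hN : IsField T N) {u : U} (hu : N u ≠ u) : N (N u) ≠ u :=
  (hN.2 u (N u) (rsc_adj hN hu)).1 rfl

theorem rsc_step (hN : IsField T N) (hN' : IsField T N') {u : U} (h : OnI N N' u)
    (hu : N u ≠ u) : N' (N u) = u ∧ N (N u) ≠ u ∧ OnI N N' (N u) := by
  have hadj := rsc_adj hN hu
  have h1 : N' u ≠ N u := fun e => hu (h e.symm)
  have h2 := rsc_back hN' hadj h1
  have h3 := rsc_ne hN hu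
  exact ⟨h2, h3, fun e => absurd (e.trans h2) h3⟩

theorem rsc_onI_symm {u : U} (h : OnI N N' u) : OnI N' N u := fun e => e.trans (h e.symm)

theorem rsc_closed (hT : T.Connected) (R : U → Prop) (hs : ∀ u w, T.Adj u w → R u → R w)
    (u0 : U) (h0 : R u0) (u : U) : R u := by
  obtain ⟨p⟩ := hT.preconnected u0 u
  induction p with
  | nil => exact h0
  | cons h p ih => exact ih (hs _ _ h h0)

theorem rsc_merge (hT : T.Connected) (hN : IsField T N) (u u' : U) :
    ∃ k l : ℕ, N^[k] u = N^[l] u' := by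
  refine rsc_closed hT (fun w => ∃ k l : ℕ, N^[k] u = N^[l] w) ?_ u ⟨0, 0, rfl⟩ u'
  rintro w w' h ⟨k, l, e⟩
  by_cases h1 : N w = w'
  · refine ⟨k + 1, l, ?_⟩
    rw [Function.iterate_succ_apply', e, ← Function.iterate_succ_apply' N l w,
      Function.iterate_succ_apply, h1]
  · have h2 := rsc_back hN h h1
    exact ⟨k, l + 1, by rw [Function.iterate_succ_apply, h2]; exact e⟩

theorem rsc_reach (hT : T.Connected) (hN : IsField T N) (x0 : U) (h0 : N x0 = x0) (u : U) :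
    ∃ k : ℕ, N^[k] u = x0 := by
  obtain ⟨k, l, e⟩ := rsc_merge hT hN u x0
  exact ⟨k, by rw [e]; exact Function.iterate_fixed h0 l⟩

theorem rsc_ev (hT : T.Connected) (hN : IsField T N) (R : U → Prop) (u1 : U)
    (h1 : ∀ k : ℕ, R (N^[k] u1)) (u : U) : ∀ᶠ j : ℕ in Filter.atTop, R (N^[j] u) := by
  obtain ⟨k, l, e⟩ := rsc_merge hT hN u u1
  rw [Filter.eventually_atTop]
  refine ⟨k, fun j hj => ?_⟩
  obtain ⟨i, rfl⟩ := Nat.exists_eq_add_of_le hj
  rw [Nat.add_comm, Function.iterate_add_apply, e, ← Function.iterate_add_apply]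
  exact h1 _

/-- iterating towards `N` stays on `I(N,N')` -/
theorem rsc_onI_iter (hN : IsField T N) (hN' : IsField T N') {u : U} (h : OnI N N' u) (k : ℕ) :
    OnI N N' (N^[k] u) := by
  induction k generalizing u with
  | zero => exact h
  | succ k ih =>
    rw [Function.iterate_succ_apply]
    by_cases hu : N u = u
    · rw [hu]; exact ih h
    · exact ih (rsc_step hN hN' h hu).2.2

end fields

section main

variable {G : Type} [Group G] {D : Setup G} {K : Cx G} {P : Pts D K}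

/-- nondegenerate pair -/
def rscND (P : Pts D K) (x y : K.V) : Prop := P.N x = P.N y → ∃ u, P.N x u = u

theorem rscND_symm {x y : K.V} (h : rscND P x y) : rscND P y x := by
  intro e
  obtain ⟨u, hu⟩ := h e.symm
  exact ⟨u, by rw [e]; exact hu⟩

theorem rsc_hyp {x : K.V} (h : ¬ EllV D K x) (u : D.U) : P.N x u ≠ u := (P.hyp x h).1 u

theorem rsc_hyp' {x : K.V} (h : ∀ u, P.N x u ≠ u) : ¬ EllV D K x := by
  intro h'
  obtain ⟨u, hu⟩ := P.ell x h'
  exact h u hu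

/-- the axis is closed under `N x` -/
theorem rsc_axis {x : K.V} (h : ¬ EllV D K x) {u : D.U} (hu : P.N x u ≠ P.M x u) :
    P.M x (P.N x u) = u ∧ P.N x (P.N x u) ≠ P.M x (P.N x u) := by
  have h1 := rsc_step (P.fN x) (P.fM x) (u := u) (fun e => absurd e hu) (rsc_hyp h u)
  refine ⟨h1.1, ?_⟩
  rw [h1.1]
  exact h1.2.1

theorem rsc_axis_iter {x : K.V} (h : ¬ EllV D K x) {u : D.U} (hu : P.N x u ≠ P.M x u) (k : ℕ) :
    P.N x ((P.N x)^[k] u) ≠ P.M x ((P.N x)^[k] u) := by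
  induction k generalizing u with
  | zero => exact hu
  | succ k ih =>
    rw [Function.iterate_succ_apply]
    exact ih (rsc_axis h hu).2

/-- going back along the axis -/
theorem rsc_axis_back {x : K.V} (h : ¬ EllV D K x) {u : D.U} (hu : P.N x u ≠ P.M x u) (k : ℕ) :
    (P.N x)^[k] ((P.M x)^[k] u) = u := by
  induction k generalizing u with
  | zero => rfl
  | succ k ih =>
    have h1 := rsc_step (P.fM x) (P.fN x) (u := u) (fun e => absurd e.symm hu)
      ((P.hyp x h).2.1 u)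
    have h2 : P.N x (P.M x u) ≠ P.M x (P.M x u) := by
      rw [h1.1]
      exact h1.2.1.symm
    rw [Function.iterate_succ_apply' (P.N x), Function.iterate_succ_apply (P.M x), ih h2, h1.1]

theorem rsc_ax_ev (hT : D.T.Connected) {x : K.V} (h : ¬ EllV D K x) (u : D.U) :
    ∀ᶠ j : ℕ in Filter.atTop, P.N x ((P.N x)^[j] u) ≠ P.M x ((P.N x)^[j] u) := by
  obtain ⟨u1, hu1⟩ := (P.hyp x h).2.2.2
  exact rsc_ev hT (P.fN x) (fun w => P.N x w ≠ P.M x w) u1 (rsc_axis_iter h hu1) u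

theorem rsc_onI_ev (hC : ST_TFC) {x y : K.V} (h : P.N x ≠ P.N y) (u : D.U) :
    ∀ᶠ j : ℕ in Filter.atTop, OnI (P.N x) (P.N y) ((P.N x)^[j] u) := by
  obtain ⟨u1, hu1⟩ := (hC D.U D.T D.tree _ _ (P.fN x) (P.fN y)).2 (fun e => absurd e h)
  exact rsc_ev D.tree.1 (P.fN x) (fun w => OnI (P.N x) (P.N y) w) u1
    (rsc_onI_iter (P.fN x) (P.fN y) hu1) u

theorem rsc_Ax {x : K.V} (h : ¬ EllV D K x) {u : D.U} (hu : P.N x u ≠ P.M x u) :
    Ax P x u (P.N x u) := ⟨rfl, (rsc_axis h hu).1, rsc_hyp h u⟩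

theorem rsc_Ax_ne {x : K.V} {u w : D.U} (h : Ax P x u w) : P.N x u ≠ P.M x u := by
  obtain ⟨h1, h2, h3⟩ := h
  rw [h1]
  have hadj : D.T.Adj u w := by
    have := rsc_adj (P.fN x) h3
    rwa [h1] at this
  intro e
  exact ((P.fM x).2 u w hadj).1 e.symm h2

/-! ### type (f) edges -/

/-- an elliptic and a hyperbolic vertex have independent stabilizers -/
theorem rsc_nonfree (P : Pts D K) (hD : ST_TFD) {x y : K.V} (hx : ¬ EllV D K x) (hf : ¬ Fr K x y) :
    ¬ EllV D K y := by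
  intro hy
  apply hf
  intro g hgx hgy
  by_contra hg
  obtain ⟨u, hu⟩ := hy
  obtain ⟨z, k, hz, hzo, hk, hzN⟩ := (P.hyp x hx).2.2.1
  have hgz : g ∈ Subgroup.zpowers z := by
    rw [← hz]; exact hgx
  obtain ⟨n, rfl⟩ := Subgroup.mem_zpowers_iff.1 hgz
  have hn : n ≠ 0 := by
    rintro rfl
    exact hg (zpow_zero z)
  have hEll : Ell D (z ^ n.natAbs) := by
    refine ⟨u, ?_⟩
    have h1 := hu _ hgy
    rcases Int.natAbs_eq n with h2 | h2
    · rw [h2, zpow_natCast] at h1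
      exact h1
    · rw [h2, zpow_neg, zpow_natCast, inv_smul_eq_iff] at h1
      exact h1.symm
  obtain ⟨w, hw⟩ := (hD G D z).1 n.natAbs (Int.natAbs_pos.2 hn) hEll
  apply hx
  refine ⟨w, fun g hg => ?_⟩
  have hg2 : g ∈ Subgroup.zpowers z := by
    rw [← hz]; exact hg
  have hle : Subgroup.zpowers z ≤ stabilizer G w := by
    rw [Subgroup.zpowers_le]
    exact hw
  exact hle hg2

/-- two hyperbolic vertices sharing a nontrivial element and with different ends -/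
theorem rsc_typef (hD : ST_TFD) {x y : K.V} (hx : ¬ EllV D K x) (hf : ¬ Fr K x y)
    (hne : P.N x ≠ P.N y) : P.N y = P.M x := by
  have hf' : ∃ g : G, g • x = x ∧ g • y = y ∧ g ≠ 1 := by
    by_contra h
    apply hf
    intro g h1 h2
    by_contra h3
    exact h ⟨g, h1, h2, h3⟩
  obtain ⟨g, hgx, hgy, hg⟩ := hf'
  obtain ⟨z, k, hz, hzo, hk, hzN⟩ := (P.hyp x hx).2.2.1
  have hgz : g ∈ Subgroup.zpowers z := by
    rw [← hz]; exact hgx
  obtain ⟨n, rfl⟩ := Subgroup.mem_zpowers_iff.1 hgz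
  have hn : n ≠ 0 := by
    rintro rfl
    exact hg (zpow_zero z)
  have hzE : ¬ Ell D z := by
    rintro ⟨w, hw⟩
    apply hx
    refine ⟨w, fun g hg => ?_⟩
    have hg2 : g ∈ Subgroup.zpowers z := by
      rw [← hz]; exact hg
    have hle : Subgroup.zpowers z ≤ stabilizer G w := by
      rw [Subgroup.zpowers_le]
      exact hw
    exact hle hg2
  obtain ⟨N0, M0, k0, _, _, _, _, _, _, _, _, _, huniq⟩ := (hD G D z).2 hzE
  have hx2 : z ^ n.natAbs • x = x := by
    rcases Int.natAbs_eq n with h2 | h2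
    · rw [h2, zpow_natCast] at hgx
      exact hgx
    · rw [h2, zpow_neg, zpow_natCast, inv_smul_eq_iff] at hgx
      exact hgx.symm
  have hy2 : z ^ n.natAbs • y = y := by
    rcases Int.natAbs_eq n with h2 | h2
    · rw [h2, zpow_natCast] at hgy
      exact hgy
    · rw [h2, zpow_neg, zpow_natCast, inv_smul_eq_iff] at hgy
      exact hgy.symm
  have e1 := huniq n.natAbs (Int.natAbs_pos.2 hn) (P.N x) (P.fN x) (fun u => by
    have := P.eN (z ^ n.natAbs) x u
    rwa [hx2] at this)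
  have e2 := huniq n.natAbs (Int.natAbs_pos.2 hn) (P.M x) (P.fM x) (fun u => by
    have := P.eM (z ^ n.natAbs) x u
    rwa [hx2] at this)
  have e3 := huniq n.natAbs (Int.natAbs_pos.2 hn) (P.N y) (P.fN y) (fun u => by
    have := P.eN (z ^ n.natAbs) y u
    rwa [hy2] at this)
  have hNM : P.N x ≠ P.M x := by
    intro e
    obtain ⟨u, hu⟩ := (P.hyp x hx).2.2.2
    exact hu (congrFun e u)
  rcases e1 with e1 | e1 <;> rcases e2 with e2 | e2 <;> rcases e3 with e3 | e3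
  · exact absurd (e1.trans e2.symm) hNM
  · exact absurd (e1.trans e2.symm) hNM
  · exact absurd (e1.trans e3.symm) hne
  · exact e3.trans e2.symm
  · exact e3.trans e2.symm
  · exact absurd (e1.trans e3.symm) hne
  · exact absurd (e1.trans e2.symm) hNM
  · exact absurd (e1.trans e2.symm) hNM

/-! ### positions -/

variable {Q : Thr D K P}

theorem rsc_swU (u w : D.U) (x y : K.V) : tk Q (.e u w x y) = tk Q (.e w u x y) :=
  congrArg Sum.inr (Quot.sound (TRel.swU u w x y))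

theorem rsc_swV (u w : D.U) (x y : K.V) : tk Q (.e u w x y) = tk Q (.e u w y x) :=
  congrArg Sum.inr (Quot.sound (TRel.swV u w x y))

theorem rsc_swL (u w : D.U) (v : K.V) : tk Q (.l u w v) = tk Q (.l w u v) :=
  congrArg Sum.inr (Quot.sound (TRel.swL u w v))

theorem rsc_t1 {x y z : K.V} {u w : D.U} (h : K.tri x y z) (ha : D.T.Adj u w)
    (h1 : P.N x u = w) (h2 : P.N y w = u) (h3 : P.N z w = u) :
    tk Q (.e u w x y) = tk Q (.e u w x z) :=
  congrArg Sum.inr (Quot.sound (TRel.t1 x y z u w h ha h1 h2 h3))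

theorem rsc_pos_fix {x y : K.V} {u : D.U} (h : P.N x u = u) : pos Q x y u = Sum.inl x := by
  unfold pos
  rw [if_pos h]

theorem rsc_pos_ne {x y : K.V} {u : D.U} (h : P.N x u ≠ u) :
    pos Q x y u = tk Q (.e u (P.N x u) x y) := by
  unfold pos
  rw [if_neg h]

theorem rsc_pos_eq {x y z : K.V} {u : D.U} (h : K.tri x y z) (h1 : OnI (P.N x) (P.N y) u)
    (h2 : OnI (P.N x) (P.N z) u) : pos Q x y u = pos Q x z u := by
  by_cases hu : P.N x u = u
  · rw [rsc_pos_fix hu, rsc_pos_fix hu]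
  · rw [rsc_pos_ne hu, rsc_pos_ne hu]
    exact rsc_t1 h (rsc_adj (P.fN x) hu) rfl (rsc_step (P.fN x) (P.fN y) h1 hu).1
      (rsc_step (P.fN x) (P.fN z) h2 hu).1

theorem rsc_pos_eq' {x y z : K.V} {u : D.U} (h : K.tri x y z) (h1 : OnI (P.N x) (P.N y) u)
    (h2 : OnI (P.N x) (P.N z) u) (hu : P.N x u ≠ u) :
    pos Q y x (P.N x u) = pos Q z x (P.N x u) := by
  have hy := (rsc_step (P.fN x) (P.fN y) h1 hu).1
  have hz := (rsc_step (P.fN x) (P.fN z) h2 hu).1
  have hy' : P.N y (P.N x u) ≠ P.N x u := by rw [hy]; exact hu.symm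
  have hz' : P.N z (P.N x u) ≠ P.N x u := by rw [hz]; exact hu.symm
  rw [rsc_pos_ne hy', rsc_pos_ne hz', hy, hz, rsc_swU, rsc_swV,
    rsc_t1 h (rsc_adj (P.fN x) hu) rfl hy hz, rsc_swV, rsc_swU]

/-! ### potentials -/

variable {H : Type} [Group H]

structure rscPot (Q : Thr D K P) (c : AV Q → AV Q → H) (lam : K.V → D.U → H)
    (W : K.V → K.V → D.U → H) : Prop where
  c1 : ∀ p q, aadj Q p q → c p q * c q p = 1
  c2 : ∀ p q r, atri Q p q r → c p q * c q r * c r p = 1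
  l1 : ∀ v u, ¬ EllV D K v → P.N v u ≠ P.M v u →
      lam v (P.M v u) = lam v u * c (tk Q (.l u (P.N v u) v)) (tk Q (.l u (P.M v u) v))
  l2 : ∀ x y u, K.adj x y → rscND P x y → OnI (P.N x) (P.N y) u →
      P.N y u ≠ u → W x y (P.N y u) = W x y u * c (pos Q x y u) (pos Q y x u)
  l3 : ∀ x y u, K.adj x y → P.N x u = u → W x y u = 1
  l4 : ∀ x y (k : ℕ), K.adj x y → Fr K x y → ¬ EllV D K x → P.N x ≠ P.N y →
      W x y ((P.N x)^[k] (Q.Q x y)) = lam x ((P.N x)^[k] (Q.Q x y))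
  l5 : ∀ x y u, K.adj x y → ¬ Fr K x y → ¬ EllV D K x → ¬ EllV D K y → P.N x ≠ P.N y →
      P.N x u ≠ P.M x u → W x y u = lam x u

/-- the value of the cocycle of `K`, computed over `u` -/
noncomputable def rscVal (Q : Thr D K P) (c : AV Q → AV Q → H) (W : K.V → K.V → D.U → H)
    (x y : K.V) (u : D.U) : H :=
  W x y u * c (pos Q x y u) (pos Q y x u) * (W y x u)⁻¹

variable {c : AV Q → AV Q → H} {lam : K.V → D.U → H} {W : K.V → K.V → D.U → H}

theorem rsc_adj1 {x y : K.V} {u : D.U} (h : K.adj x y) (hn : rscND P x y)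
    (hu : OnI (P.N x) (P.N y) u) : aadj Q (pos Q x y u) (pos Q y x u) :=
  Or.inl ⟨x, y, u, h, hn, hu, rfl, rfl⟩

theorem rsc_val_anti (R : rscPot Q c lam W) {x y : K.V} {u : D.U} (h : K.adj x y)
    (hn : rscND P x y) (hu : OnI (P.N x) (P.N y) u) :
    rscVal Q c W x y u * rscVal Q c W y x u = 1 := by
  have h1 := R.c1 _ _ (rsc_adj1 (Q := Q) h hn hu)
  have h2 : c (pos Q y x u) (pos Q x y u) = (c (pos Q x y u) (pos Q y x u))⁻¹ :=
    (inv_eq_of_mul_eq_one_right h1).symm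
  unfold rscVal
  rw [h2]
  group

theorem rsc_val_step (R : rscPot Q c lam W) {x y : K.V} {u : D.U} (h : K.adj x y)
    (hn : rscND P x y) (hu : OnI (P.N x) (P.N y) u) (hne : P.N y u ≠ u) :
    rscVal Q c W x y (P.N y u) = rscVal Q c W x y u := by
  have hu' := rsc_onI_symm hu
  obtain ⟨s1, s2, s3⟩ := rsc_step (P.fN y) (P.fN x) hu' hne
  have e1 := R.l2 x y u h hn hu hne
  have hne' : P.N x (P.N y u) ≠ P.N y u := by rw [s1]; exact hne.symm
  have e2 := R.l2 y x (P.N y u) (K.symm _ _ h) (rscND_symm hn) s3 hne'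
  rw [s1] at e2
  have h1 := R.c1 _ _ (rsc_adj1 (Q := Q) h hn (rsc_onI_symm s3))
  have h2 : c (pos Q y x (P.N y u)) (pos Q x y (P.N y u)) =
      (c (pos Q x y (P.N y u)) (pos Q y x (P.N y u)))⁻¹ :=
    (inv_eq_of_mul_eq_one_right h1).symm
  rw [h2] at e2
  unfold rscVal
  rw [← e1, e2]
  group

theorem rsc_val_iter (R : rscPot Q c lam W) {x y : K.V} {u : D.U} (h : K.adj x y)
    (hn : rscND P x y) (hu : OnI (P.N x) (P.N y) u) (k : ℕ) :
    rscVal Q c W x y ((P.N y)^[k] u) = rscVal Q c W x y u := by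
  induction k generalizing u with
  | zero => rfl
  | succ k ih =>
    rw [Function.iterate_succ_apply]
    by_cases hne : P.N y u = u
    · rw [hne]; exact ih hu
    · rw [ih (rsc_onI_symm (rsc_step (P.fN y) (P.fN x) (rsc_onI_symm hu) hne).2.2),
        rsc_val_step R h hn hu hne]

theorem rsc_val_const (hC : ST_TFC) (R : rscPot Q c lam W) {x y : K.V} {u w : D.U}
    (h : K.adj x y) (hn : rscND P x y) (hu : OnI (P.N x) (P.N y) u)
    (hw : OnI (P.N x) (P.N y) w) : rscVal Q c W x y u = rscVal Q c W x y w := by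
  obtain ⟨k, hk | hk⟩ := (hC D.U D.T D.tree _ _ (P.fN x) (P.fN y)).1 u w hu hw
  · have h1 := rsc_val_iter R (K.symm _ _ h) (rscND_symm hn) (rsc_onI_symm hu) k
    rw [← hk] at h1
    have h2 := rsc_val_anti R h hn hu
    have h3 := rsc_val_anti R h hn hw
    rw [h1] at h3
    exact mul_right_cancel (h2.trans h3.symm)
  · have h1 := rsc_val_iter R h hn hu k
    rw [← hk] at h1
    exact h1.symm

/-! ### degenerate edges -/

theorem rsc_deg {x y : K.V} (h : ¬ rscND P x y) :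
    P.N x = P.N y ∧ ¬ EllV D K x ∧ ¬ EllV D K y := by
  unfold rscND at h
  push Not at h
  obtain ⟨h1, h2⟩ := h
  exact ⟨h1, rsc_hyp' h2, rsc_hyp' (P := P) (by rw [← h1]; exact h2)⟩

theorem rsc_t3 {x y : K.V} {u w : D.U} (h : K.adj x y) (hd : P.N x = P.N y)
    (hx : ¬ EllV D K x) (hy : ¬ EllV D K y) (h1 : Ax P x u w) (h2 : Ax P y u w) :
    tk Q (.l u w x) = tk Q (.l u w y) :=
  congrArg Sum.inr (Quot.sound (TRel.t3 x y u w h hd hx hy h1 h2))

theorem rsc_lam_step (R : rscPot Q c lam W) {x y : K.V} {u : D.U} (h : K.adj x y)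
    (hd : P.N x = P.N y) (hx : ¬ EllV D K x) (hy : ¬ EllV D K y)
    (hux : P.N x u ≠ P.M x u) (huy : P.N y u ≠ P.M y u) :
    lam x u * (lam y u)⁻¹ = lam x (P.N x u) * (lam y (P.N x u))⁻¹ := by
  have hd' : P.N y u = P.N x u := by rw [hd]
  obtain ⟨a1, a2⟩ := rsc_axis hx hux
  obtain ⟨b1, b2⟩ := rsc_axis hy huy
  rw [hd'] at b1 b2
  have e1 := R.l1 x (P.N x u) hx a2
  have e2 := R.l1 y (P.N x u) hy b2
  rw [a1] at e1
  rw [b1] at e2
  have hd2 : P.N y (P.N x u) = P.N x (P.N x u) := by rw [hd]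
  have A1 := rsc_Ax hx a2
  have A2 := rsc_Ax hy b2
  rw [hd2] at A2 e2
  have B1 := rsc_Ax hx hux
  have B2 := rsc_Ax hy huy
  rw [hd'] at B2
  rw [rsc_t3 h hd hx hy A1 A2, rsc_swL (P.N x u) u x, rsc_t3 h hd hx hy B1 B2,
    rsc_swL u (P.N x u) y] at e1
  rw [e1, e2]
  group

theorem rsc_lam_iter (R : rscPot Q c lam W) {x y : K.V} {u : D.U} (h : K.adj x y)
    (hd : P.N x = P.N y) (hx : ¬ EllV D K x) (hy : ¬ EllV D K y)
    (hux : P.N x u ≠ P.M x u) (huy : P.N y u ≠ P.M y u) (k : ℕ) :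
    lam x u * (lam y u)⁻¹ = lam x ((P.N x)^[k] u) * (lam y ((P.N x)^[k] u))⁻¹ := by
  induction k generalizing u with
  | zero => rfl
  | succ k ih =>
    rw [Function.iterate_succ_apply]
    have b2 := (rsc_axis hy huy).2
    have hd' : P.N y u = P.N x u := by rw [hd]
    rw [hd'] at b2
    rw [rsc_lam_step R h hd hx hy hux huy]
    exact ih (rsc_axis hx hux).2 b2

theorem rsc_lam_const (hC : ST_TFC) (R : rscPot Q c lam W) {x y : K.V} {u w : D.U}
    (h : K.adj x y) (hd : P.N x = P.N y) (hx : ¬ EllV D K x) (hy : ¬ EllV D K y)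
    (hux : P.N x u ≠ P.M x u) (huy : P.N y u ≠ P.M y u)
    (hwx : P.N x w ≠ P.M x w) (hwy : P.N y w ≠ P.M y w) :
    lam x u * (lam y u)⁻¹ = lam x w * (lam y w)⁻¹ := by
  obtain ⟨k, hk | hk⟩ := (hC D.U D.T D.tree _ _ (P.fN x) (P.fM x)).1 u w
    (fun e => absurd e hux) (fun e => absurd e hwx)
  · rw [hk]
    exact rsc_lam_iter R h hd hx hy hux huy k
  · have h1 := rsc_axis_back hx hux k
    rw [← hk] at h1
    rw [← h1]
    exact (rsc_lam_iter R h hd hx hy hwx hwy k).symm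

/-- a common point of the two axes -/
theorem rsc_common {x y : K.V} (hd : P.N x = P.N y) (hx : ¬ EllV D K x) (hy : ¬ EllV D K y) :
    ∃ u, P.N x u ≠ P.M x u ∧ P.N y u ≠ P.M y u := by
  have h1 := rsc_ax_ev (P := P) D.tree.1 hx D.u0
  have h2 := rsc_ax_ev (P := P) D.tree.1 hy D.u0
  rw [← hd] at h2
  obtain ⟨j, h3, h4⟩ := (h1.and h2).exists
  exact ⟨_, h3, by rw [← hd]; exact h4⟩

/-- the cocycle on `K` -/
theorem rsc_cK (hC : ST_TFC) (R : rscPot Q c lam W) : ∃ cK : K.V → K.V → H,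
    (∀ x y u, K.adj x y → rscND P x y → OnI (P.N x) (P.N y) u →
      cK x y = rscVal Q c W x y u) ∧
    (∀ x y u, K.adj x y → ¬ rscND P x y → P.N x u ≠ P.M x u → P.N y u ≠ P.M y u →
      cK x y = lam x u * (lam y u)⁻¹) := by
  have key : ∀ x y : K.V, ∃ a : H,
      (∀ u, K.adj x y → rscND P x y → OnI (P.N x) (P.N y) u → a = rscVal Q c W x y u) ∧
      (∀ u, K.adj x y → ¬ rscND P x y → P.N x u ≠ P.M x u → P.N y u ≠ P.M y u →
        a = lam x u * (lam y u)⁻¹) := by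
    intro x y
    by_cases hn : rscND P x y
    · obtain ⟨u0, hu0⟩ := (hC D.U D.T D.tree _ _ (P.fN x) (P.fN y)).2 hn
      exact ⟨rscVal Q c W x y u0, fun u h _ hu => rsc_val_const hC R h hn hu0 hu,
        fun u _ h' => absurd hn h'⟩
    · obtain ⟨hd, hx, hy⟩ := rsc_deg hn
      obtain ⟨u0, h1, h2⟩ := rsc_common hd hx hy
      exact ⟨lam x u0 * (lam y u0)⁻¹, fun u _ h' => absurd h' hn,
        fun u h _ h3 h4 => rsc_lam_const hC R h hd hx hy h1 h2 h3 h4⟩
  choose cK h1 h2 using key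
  exact ⟨cK, fun x y u => h1 x y u, fun x y u => h2 x y u⟩

/-! ### (W2) -/

theorem rsc_W2_step (R : rscPot Q c lam W) {x y z : K.V} (h : K.tri x y z)
    (hny : rscND P x y) (hnz : rscND P x z) (k : ℕ) {u : D.U} (hy : OnI (P.N x) (P.N y) u)
    (hz : OnI (P.N x) (P.N z) u) (hk : W x y ((P.N x)^[k] u) = W x z ((P.N x)^[k] u)) :
    W x y u = W x z u := by
  induction k generalizing u with
  | zero => exact hk
  | succ k ih =>
    rw [Function.iterate_succ_apply] at hk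
    by_cases hu : P.N x u = u
    · rw [hu] at hk
      exact ih hy hz hk
    · obtain ⟨a1, a2, a3⟩ := rsc_step (P.fN x) (P.fN y) hy hu
      obtain ⟨b1, b2, b3⟩ := rsc_step (P.fN x) (P.fN z) hz hu
      have h1 := ih a3 b3 hk
      have hxy := K.tri_adj _ _ _ h
      have hxz := K.tri_adj _ _ _ (K.tri_rot _ _ _ (K.tri_swap _ _ _ h))
      have e1 := R.l2 x y (P.N x u) hxy hny a3 (by rw [a1]; exact fun e => hu e.symm)
      have e2 := R.l2 x z (P.N x u) hxz hnz b3 (by rw [b1]; exact fun e => hu e.symm)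
      rw [a1] at e1
      rw [b1] at e2
      rw [e1, e2, h1, rsc_pos_eq h a3 b3, rsc_pos_eq' h hy hz hu]

/-- far ahead, `W` is the potential of the line -/
theorem rsc_W_ev (hD : ST_TFD) (R : rscPot Q c lam W) {x y : K.V} (h : K.adj x y)
    (hx : ¬ EllV D K x) (hne : P.N x ≠ P.N y) (u : D.U) :
    ∀ᶠ j : ℕ in Filter.atTop, W x y ((P.N x)^[j] u) = lam x ((P.N x)^[j] u) := by
  by_cases hf : Fr K x y
  · exact rsc_ev D.tree.1 (P.fN x) (fun w => W x y w = lam x w) (Q.Q x y)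
      (fun k => R.l4 x y k h hf hx hne) u
  · have hy := rsc_nonfree P hD hx hf
    exact (rsc_ax_ev (P := P) D.tree.1 hx u).mono
      (fun j hj => R.l5 x y _ h hf hx hy hne hj)

theorem rsc_W2 (hD : ST_TFD) (R : rscPot Q c lam W) {x y z : K.V} (h : K.tri x y z)
    (hny : rscND P x y) (hnz : rscND P x z) {u : D.U} (hy : OnI (P.N x) (P.N y) u)
    (hz : OnI (P.N x) (P.N z) u) : W x y u = W x z u := by
  have hxy := K.tri_adj _ _ _ h
  have hxz := K.tri_adj _ _ _ (K.tri_rot _ _ _ (K.tri_swap _ _ _ h))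
  by_cases hx : ∃ u0, P.N x u0 = u0
  · obtain ⟨u0, hu0⟩ := hx
    obtain ⟨k, hk⟩ := rsc_reach D.tree.1 (P.fN x) u0 hu0 u
    refine rsc_W2_step R h hny hnz k hy hz ?_
    rw [hk, R.l3 x y u0 hxy hu0, R.l3 x z u0 hxz hu0]
  · have hxe : ¬ EllV D K x := rsc_hyp' (P := P) (fun w hw => hx ⟨w, hw⟩)
    have hne1 : P.N x ≠ P.N y := fun e => hx (hny e)
    have hne2 : P.N x ≠ P.N z := fun e => hx (hnz e)
    obtain ⟨j, h1, h2⟩ := ((rsc_W_ev hD R hxy hxe hne1 u).and
      (rsc_W_ev hD R hxz hxe hne2 u)).exists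
    exact rsc_W2_step R h hny hnz j hy hz (h1.trans h2.symm)

/-! ### the cocycle condition on `K` -/

theorem rsc_tri_nd (hB : ST_TFB) (hD : ST_TFD) (R : rscPot Q c lam W) {cK : K.V → K.V → H}
    (k1 : ∀ x y u, K.adj x y → rscND P x y → OnI (P.N x) (P.N y) u →
      cK x y = rscVal Q c W x y u)
    {x y z : K.V} (h : K.tri x y z) (n1 : rscND P x y) (n2 : rscND P y z)
    (n3 : rscND P z x) : cK x y * cK y z * cK z x = 1 := by
  have n3' := rscND_symm n3
  obtain ⟨u, ⟨c1, c2, c3⟩, _⟩ := hB D.U D.T D.tree _ _ _ (P.fN x) (P.fN y) (P.fN z) n1 n2 n3'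
  have t2 := K.tri_rot _ _ _ h
  have t3 := K.tri_rot _ _ _ t2
  have s1 := K.tri_swap _ _ _ h
  have s2 := K.tri_swap _ _ _ t2
  have s3 := K.tri_swap _ _ _ t3
  have a1 := K.tri_adj _ _ _ h
  have a2 := K.tri_adj _ _ _ t2
  have a3 := K.tri_adj _ _ _ t3
  have o1 : OnI (P.N x) (P.N y) u := c1
  have o2 : OnI (P.N y) (P.N z) u := c2
  have o3 : OnI (P.N x) (P.N z) u := c3
  have o1' := rsc_onI_symm o1
  have o2' := rsc_onI_symm o2
  have o3' := rsc_onI_symm o3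
  rw [k1 x y u a1 n1 o1, k1 y z u a2 n2 o2, k1 z x u a3 n3 o3']
  unfold rscVal
  rw [rsc_pos_eq s1 o1' o2, rsc_pos_eq s2 o2' o3', rsc_pos_eq s3 o3 o1,
    rsc_W2 hD R s1 (rscND_symm n1) n2 o1' o2, rsc_W2 hD R s2 (rscND_symm n2) n3 o2' o3',
    rsc_W2 hD R s3 n3' n1 o3 o1]
  have e : c (pos Q x y u) (pos Q y z u) * c (pos Q y z u) (pos Q z x u) *
      c (pos Q z x u) (pos Q x y u) = 1 :=
    R.c2 _ _ _ ⟨x, y, z, u, h, ⟨c1, c2, c3⟩, rfl, rfl, rfl⟩
  calc W x y u * c (pos Q x y u) (pos Q y z u) * (W y z u)⁻¹ *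
        (W y z u * c (pos Q y z u) (pos Q z x u) * (W z x u)⁻¹) *
        (W z x u * c (pos Q z x u) (pos Q x y u) * (W x y u)⁻¹)
      = W x y u * (c (pos Q x y u) (pos Q y z u) * c (pos Q y z u) (pos Q z x u) *
      c (pos Q z x u) (pos Q x y u)) * (W x y u)⁻¹ := by group
    _ = 1 := by rw [e]; group

theorem rsc_tri_deg (hC : ST_TFC) (hD : ST_TFD) (R : rscPot Q c lam W) {cK : K.V → K.V → H}
    (k1 : ∀ x y u, K.adj x y → rscND P x y → OnI (P.N x) (P.N y) u →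
      cK x y = rscVal Q c W x y u)
    (k2 : ∀ x y u, K.adj x y → ¬ rscND P x y → P.N x u ≠ P.M x u → P.N y u ≠ P.M y u →
      cK x y = lam x u * (lam y u)⁻¹)
    {x y z : K.V} (h : K.tri x y z) (n1 : ¬ rscND P x y) : cK x y * cK y z * cK z x = 1 := by
  have t2 := K.tri_rot _ _ _ h
  have t3 := K.tri_rot _ _ _ t2
  have s2 := K.tri_swap _ _ _ t2
  have s3 := K.tri_swap _ _ _ t3
  have a1 := K.tri_adj _ _ _ h
  have a2 := K.tri_adj _ _ _ t2
  have a3 := K.tri_adj _ _ _ t3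
  have a3' := K.tri_adj _ _ _ s3
  obtain ⟨hd, hx, hy⟩ := rsc_deg n1
  have v1 := rsc_ax_ev (P := P) D.tree.1 hx D.u0
  have v2 := rsc_ax_ev (P := P) D.tree.1 hy D.u0
  by_cases hz : P.N z = P.N x
  · have hze : ¬ EllV D K z := rsc_hyp' (P := P) (fun u => by rw [hz]; exact rsc_hyp hx u)
    have v3 := rsc_ax_ev (P := P) D.tree.1 hze D.u0
    rw [← hd] at v2
    rw [hz] at v3
    obtain ⟨j, ⟨w1, w2⟩, w3⟩ := ((v1.and v2).and v3).exists
    have n2 : ¬ rscND P y z := by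
      intro hn
      obtain ⟨u, hu⟩ := hn (hd.symm.trans hz.symm)
      exact rsc_hyp hy u hu
    have n3 : ¬ rscND P z x := by
      intro hn
      obtain ⟨u, hu⟩ := hn hz
      exact rsc_hyp hze u hu
    have w2' : P.N y ((P.N x)^[j] D.u0) ≠ P.M y ((P.N x)^[j] D.u0) := by
      rw [← hd]; exact w2
    have w3' : P.N z ((P.N x)^[j] D.u0) ≠ P.M z ((P.N x)^[j] D.u0) := by
      rw [hz]; exact w3
    rw [k2 x y _ a1 n1 w1 w2', k2 y z _ a2 n2 w2' w3', k2 z x _ a3 n3 w3' w1]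
    group
  · have hz1 : P.N x ≠ P.N z := fun e => hz e.symm
    have hz2 : P.N y ≠ P.N z := fun e => hz (e.symm.trans hd.symm)
    have v3 := rsc_onI_ev (P := P) hC hz1 D.u0
    have v4 := rsc_W_ev hD R a3' hx hz1 D.u0
    have v5 := rsc_W_ev hD R a2 hy hz2 D.u0
    rw [← hd] at v2 v5
    obtain ⟨j, ⟨⟨⟨w1, w2⟩, w3⟩, w4⟩, w5⟩ := ((((v1.and v2).and v3).and v4).and v5).exists
    generalize (P.N x)^[j] D.u0 = u at w1 w2 w3 w4 w5
    have w2' : P.N y u ≠ P.M y u := by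
      rw [← hd]; exact w2
    have n2 : rscND P y z := fun e => absurd e hz2
    have n3 : rscND P z x := fun e => absurd e hz
    have o3 : OnI (P.N x) (P.N z) u := w3
    have o2 : OnI (P.N y) (P.N z) u := by rw [← hd]; exact w3
    have o3' := rsc_onI_symm o3
    have o2' := rsc_onI_symm o2
    rw [k2 x y u a1 n1 w1 w2', k1 y z u a2 n2 o2, k1 z x u a3 n3 o3']
    unfold rscVal
    have hxu := rsc_hyp (P := P) hx u
    have hadj := rsc_adj (P.fN x) hxu
    have hzw : P.N z (P.N x u) = u := (rsc_step (P.fN x) (P.fN z) o3 hxu).1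
    have hyu : P.N y u = P.N x u := by rw [hd]
    have e1 : pos Q y z u = pos Q x z u := by
      rw [rsc_pos_ne (rsc_hyp (P := P) hy u), rsc_pos_ne hxu, hyu, rsc_swU, rsc_swV,
        rsc_swU u (P.N x u) x z, rsc_swV (P.N x u) u x z]
      exact rsc_t1 s2 hadj.symm hzw hyu rfl
    have e2 : pos Q z y u = pos Q z x u := rsc_pos_eq s2 o2' o3'
    have e3 : W z y u = W z x u := rsc_W2 hD R s2 (rscND_symm n2) n3 o2' o3'
    have e4 := R.c1 _ _ (rsc_adj1 (Q := Q) a3' (rscND_symm n3) o3)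
    have e5 : c (pos Q z x u) (pos Q x z u) = (c (pos Q x z u) (pos Q z x u))⁻¹ :=
      (inv_eq_of_mul_eq_one_right e4).symm
    rw [e1, e2, e3, e5, w4, w5]
    group

theorem rsc_cocycle (hB : ST_TFB) (hC : ST_TFC) (hD : ST_TFD) (R : rscPot Q c lam W)
    {cK : K.V → K.V → H}
    (k1 : ∀ x y u, K.adj x y → rscND P x y → OnI (P.N x) (P.N y) u →
      cK x y = rscVal Q c W x y u)
    (k2 : ∀ x y u, K.adj x y → ¬ rscND P x y → P.N x u ≠ P.M x u → P.N y u ≠ P.M y u →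
      cK x y = lam x u * (lam y u)⁻¹)
    {x y z : K.V} (h : K.tri x y z) : cK x y * cK y z * cK z x = 1 := by
  have t2 := K.tri_rot _ _ _ h
  have t3 := K.tri_rot _ _ _ t2
  by_cases n1 : rscND P x y
  · by_cases n2 : rscND P y z
    · by_cases n3 : rscND P z x
      · exact rsc_tri_nd hB hD R k1 h n1 n2 n3
      · have e := rsc_tri_deg hC hD R k1 k2 t3 n3
        calc cK x y * cK y z * cK z x
            = (cK z x)⁻¹ * (cK z x * cK x y * cK y z) * cK z x := by group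
          _ = 1 := by rw [e]; group
    · have e := rsc_tri_deg hC hD R k1 k2 t2 n2
      calc cK x y * cK y z * cK z x
          = cK x y * (cK y z * cK z x * cK x y) * (cK x y)⁻¹ := by group
        _ = 1 := by rw [e]; group
  · exact rsc_tri_deg hC hD R k1 k2 h n1

theorem rsc_anti (hC : ST_TFC) (R : rscPot Q c lam W)
    {cK : K.V → K.V → H}
    (k1 : ∀ x y u, K.adj x y → rscND P x y → OnI (P.N x) (P.N y) u →
      cK x y = rscVal Q c W x y u)
    (k2 : ∀ x y u, K.adj x y → ¬ rscND P x y → P.N x u ≠ P.M x u → P.N y u ≠ P.M y u →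
      cK x y = lam x u * (lam y u)⁻¹)
    {x y : K.V} (h : K.adj x y) : cK x y * cK y x = 1 := by
  by_cases n1 : rscND P x y
  · obtain ⟨u, hu⟩ := (hC D.U D.T D.tree _ _ (P.fN x) (P.fN y)).2 n1
    rw [k1 x y u h n1 hu, k1 y x u (K.symm _ _ h) (rscND_symm n1) (rsc_onI_symm hu)]
    exact rsc_val_anti R h n1 hu
  · obtain ⟨hd, hx, hy⟩ := rsc_deg n1
    obtain ⟨u, h1, h2⟩ := rsc_common hd hx hy
    rw [k2 x y u h n1 h1 h2, k2 y x u (K.symm _ _ h) (fun hn => n1 (rscND_symm hn)) h2 h1]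
    group

/-! ### the potential on the resolved complex -/

open Classical in
noncomputable def rscF (P : Pts D K) (f : K.V → H) (lam : K.V → D.U → H)
    (W : K.V → K.V → D.U → H) : Tk D.U K.V → H
  | .e u w x y =>
      if K.adj x y ∧ D.T.Adj u w ∧ P.N x u = w ∧ P.N y w = u then f x * W x y u else
      if K.adj x y ∧ D.T.Adj u w ∧ P.N x w = u ∧ P.N y u = w then f x * W x y w else 1
  | .l u w v => if Ax P v u w then f v * lam v u else if Ax P v w u then f v * lam v w else 1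

variable {f : K.V → H}

theorem rscF_e1 {u w : D.U} {x y : K.V} (h : K.adj x y) (ha : D.T.Adj u w)
    (h1 : P.N x u = w) (h2 : P.N y w = u) : rscF P f lam W (.e u w x y) = f x * W x y u := by
  unfold rscF
  exact if_pos ⟨h, ha, h1, h2⟩

theorem rscF_e2 {u w : D.U} {x y : K.V} (h : K.adj x y) (ha : D.T.Adj u w)
    (h1 : P.N x w = u) (h2 : P.N y u = w) : rscF P f lam W (.e u w x y) = f x * W x y w := by
  unfold rscF
  have hn : ¬ (K.adj x y ∧ D.T.Adj u w ∧ P.N x u = w ∧ P.N y w = u) := by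
    rintro ⟨_, _, h3, _⟩
    exact ((P.fN x).2 u w ha).1 h3 h1
  exact (if_neg hn).trans (if_pos ⟨h, ha, h1, h2⟩)

theorem rscF_e3 {u w : D.U} {x y : K.V}
    (h1 : ¬ (K.adj x y ∧ D.T.Adj u w ∧ P.N x u = w ∧ P.N y w = u))
    (h2 : ¬ (K.adj x y ∧ D.T.Adj u w ∧ P.N x w = u ∧ P.N y u = w)) :
    rscF P f lam W (.e u w x y) = 1 := by
  unfold rscF
  exact (if_neg h1).trans (if_neg h2)

theorem rscF_l1 {u w : D.U} {v : K.V} (h : Ax P v u w) :
    rscF P f lam W (.l u w v) = f v * lam v u := by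
  unfold rscF
  exact if_pos h

theorem rscF_l2 {u w : D.U} {v : K.V} (h : Ax P v w u) :
    rscF P f lam W (.l u w v) = f v * lam v w := by
  unfold rscF
  have hn : ¬ Ax P v u w := by
    intro h'
    have hadj := rsc_adj (P.fN v) h'.2.2
    rw [h'.1] at hadj
    exact ((P.fN v).2 u w hadj).1 h'.1 h.1
  exact (if_neg hn).trans (if_pos h)

theorem rscF_l3 {u w : D.U} {v : K.V} (h : ¬ Ax P v u w) (h' : ¬ Ax P v w u) :
    rscF P f lam W (.l u w v) = 1 := by
  unfold rscF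
  exact (if_neg h).trans (if_neg h')

/-- both endpoints of a crossing edge give the same value -/
theorem rsc_star (R : rscPot Q c lam W) {cK : K.V → K.V → H}
    (k1 : ∀ x y u, K.adj x y → rscND P x y → OnI (P.N x) (P.N y) u →
      cK x y = rscVal Q c W x y u)
    (hf : ∀ x y, K.adj x y → cK x y = (f x)⁻¹ * f y) {x y : K.V} {u w : D.U}
    (h : K.adj x y) (ha : D.T.Adj u w) (h1 : P.N x u = w) (h2 : P.N y w = u) :
    f x * W x y u = f y * W y x w := by
  have hxw : P.N x w ≠ u := ((P.fN x).2 u w ha).1 h1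
  have hne : P.N x ≠ P.N y := by
    intro e
    rw [e] at hxw
    exact hxw h2
  have hn : rscND P x y := fun e => absurd e hne
  have ho : OnI (P.N x) (P.N y) w := by
    intro e
    rw [h2] at e
    exact absurd e hxw
  have e1 := R.l2 x y w h hn ho (by rw [h2]; exact ha.ne)
  rw [h2] at e1
  have e2 := k1 x y w h hn ho
  rw [hf x y h] at e2
  unfold rscVal at e2
  rw [← e1] at e2
  have e3 : f y = f x * (W x y u * (W y x w)⁻¹) := by
    rw [← e2]; group
  rw [e3]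
  group

theorem rscF_inv (hD : ST_TFD) (R : rscPot Q c lam W) {cK : K.V → K.V → H}
    (k1 : ∀ x y u, K.adj x y → rscND P x y → OnI (P.N x) (P.N y) u →
      cK x y = rscVal Q c W x y u)
    (k2 : ∀ x y u, K.adj x y → ¬ rscND P x y → P.N x u ≠ P.M x u → P.N y u ≠ P.M y u →
      cK x y = lam x u * (lam y u)⁻¹)
    (hf : ∀ x y, K.adj x y → cK x y = (f x)⁻¹ * f y) {τ τ' : Tk D.U K.V}
    (h : TRel Q τ τ') : rscF P f lam W τ = rscF P f lam W τ' := by
  cases h with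
  | swU u w x y =>
    by_cases h1 : K.adj x y ∧ D.T.Adj u w ∧ P.N x u = w ∧ P.N y w = u
    · obtain ⟨a1, a2, a3, a4⟩ := h1
      rw [rscF_e1 a1 a2 a3 a4, rscF_e2 a1 a2.symm a3 a4]
    · by_cases h2 : K.adj x y ∧ D.T.Adj u w ∧ P.N x w = u ∧ P.N y u = w
      · obtain ⟨a1, a2, a3, a4⟩ := h2
        rw [rscF_e2 a1 a2 a3 a4, rscF_e1 a1 a2.symm a3 a4]
      · rw [rscF_e3 h1 h2, rscF_e3 (fun h => h2 ⟨h.1, h.2.1.symm, h.2.2⟩)
          (fun h => h1 ⟨h.1, h.2.1.symm, h.2.2⟩)]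
  | swV u w x y =>
    by_cases h1 : K.adj x y ∧ D.T.Adj u w ∧ P.N x u = w ∧ P.N y w = u
    · obtain ⟨a1, a2, a3, a4⟩ := h1
      rw [rscF_e1 a1 a2 a3 a4, rscF_e2 (K.symm _ _ a1) a2 a4 a3]
      exact rsc_star R k1 hf a1 a2 a3 a4
    · by_cases h2 : K.adj x y ∧ D.T.Adj u w ∧ P.N x w = u ∧ P.N y u = w
      · obtain ⟨a1, a2, a3, a4⟩ := h2
        rw [rscF_e2 a1 a2 a3 a4, rscF_e1 (K.symm _ _ a1) a2 a4 a3]
        exact rsc_star R k1 hf a1 a2.symm a3 a4
      · rw [rscF_e3 h1 h2, rscF_e3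
          (fun h => h2 ⟨K.symm _ _ h.1, h.2.1, h.2.2.2, h.2.2.1⟩)
          (fun h => h1 ⟨K.symm _ _ h.1, h.2.1, h.2.2.2, h.2.2.1⟩)]
  | swL u w v =>
    by_cases h1 : Ax P v u w
    · rw [rscF_l1 h1, rscF_l2 h1]
    · by_cases h2 : Ax P v w u
      · rw [rscF_l2 h2, rscF_l1 h2]
      · rw [rscF_l3 h1 h2, rscF_l3 h2 h1]
  | t1 x y z u w h ha h1 h2 h3 =>
    have a1 := K.tri_adj _ _ _ h
    have a2 := K.tri_adj _ _ _ (K.tri_rot _ _ _ (K.tri_swap _ _ _ h))
    have hxw : P.N x w ≠ u := ((P.fN x).2 u w ha).1 h1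
    have hyu : P.N y u ≠ w := ((P.fN y).2 w u ha.symm).1 h2
    have hzu : P.N z u ≠ w := ((P.fN z).2 w u ha.symm).1 h3
    have n1 : rscND P x y := by
      intro e
      rw [← e] at h2
      exact absurd h2 hxw
    have n2 : rscND P x z := by
      intro e
      rw [← e] at h3
      exact absurd h3 hxw
    have o1 : OnI (P.N x) (P.N y) u := by
      intro e
      rw [h1] at e
      exact absurd e.symm hyu
    have o2 : OnI (P.N x) (P.N z) u := by
      intro e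
      rw [h1] at e
      exact absurd e.symm hzu
    rw [rscF_e1 a1 ha h1 h2, rscF_e1 a2 ha h1 h3, rsc_W2 hD R h n1 n2 o1 o2]
  | t2 v y k h1 h2 h3 h4 =>
    obtain ⟨o1, o2⟩ := Q.hyp v y h1 h2 h3 h4
    have o1k := rsc_onI_iter (P.fN v) (P.fN y) o1 k
    have o2k := rsc_axis_iter h3 o2 k
    have e4 := R.l4 v y k h1 h2 h3 h4
    rw [Function.iterate_succ_apply']
    generalize (P.N v)^[k] (Q.Q v y) = u at o1k o2k e4
    have hvu := rsc_hyp (P := P) h3 u
    rw [rscF_e1 h1 (rsc_adj (P.fN v) hvu) rfl (rsc_step (P.fN v) (P.fN y) o1k hvu).1,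
      rscF_l1 (rsc_Ax h3 o2k), e4]
  | t3 v v' u w h1 h2 h3 h4 h5 h6 =>
    rw [rscF_l1 h5, rscF_l1 h6]
    have n1 : ¬ rscND P v v' := by
      intro hn
      obtain ⟨u, hu⟩ := hn h2
      exact rsc_hyp h3 u hu
    have e1 := k2 v v' u h1 n1 (rsc_Ax_ne h5) (rsc_Ax_ne h6)
    rw [hf v v' h1] at e1
    have e2 : f v' = f v * (lam v u * (lam v' u)⁻¹) := by
      rw [← e1]; group
    rw [e2]
    group
  | t4 v v' u w h1 h2 h3 h4 h5 h6 =>
    have e1 := rsc_typef hD h4 h3 h2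
    have h7 : P.N v' w = u := by rw [e1]; exact h6.2.1
    have hadj := rsc_adj (P.fN v) h6.2.2
    rw [h6.1] at hadj
    rw [rscF_e1 h1 hadj h6.1 h7, rscF_l1 h6, R.l5 v v' u h1 h3 h4 h5 h2 (rsc_Ax_ne h6)]

/-- the potential on the resolved complex -/
noncomputable def rscG (Q : Thr D K P) (f : K.V → H) (F : Tk D.U K.V → H)
    (hF : ∀ τ τ', TRel Q τ τ' → F τ = F τ') : AV Q → H
  | Sum.inl x => f x
  | Sum.inr q => Quot.lift F hF q

theorem rscG_pos (R : rscPot Q c lam W)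
    (hF : ∀ τ τ', TRel Q τ τ' → rscF P f lam W τ = rscF P f lam W τ') {x y : K.V} {u : D.U}
    (h : K.adj x y) (ho : OnI (P.N x) (P.N y) u) :
    rscG Q f (rscF P f lam W) hF (pos Q x y u) = f x * W x y u := by
  by_cases hu : P.N x u = u
  · rw [rsc_pos_fix hu, R.l3 x y u h hu, mul_one]
    rfl
  · rw [rsc_pos_ne hu]
    exact rscF_e1 (f := f) (lam := lam) (W := W) h (rsc_adj (P.fN x) hu) rfl
      (rsc_step (P.fN x) (P.fN y) ho hu).1

end main

theorem st_RSC (hB : ST_TFB) (hC : ST_TFC) (hD : ST_TFD) (hW : ST_POTW) : ST_RSC := by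
  intro G _ D K P Q H _ c hc1 hc2
  obtain ⟨lam, W, l1, l2, l3, l4, l5⟩ := hW G D K P Q H c hc1
  have R : rscPot Q c lam W := ⟨hc1, hc2, l1, l2, l3, l4, l5⟩
  obtain ⟨cK, k1, k2⟩ := rsc_cK hC R
  obtain ⟨f, hf⟩ := K.sc H cK (fun x y h => rsc_anti hC R k1 k2 h)
    (fun x y z h => rsc_cocycle hB hC hD R k1 k2 h)
  have hF : ∀ τ τ', TRel Q τ τ' → rscF P f lam W τ = rscF P f lam W τ' :=
    fun τ τ' h => rscF_inv hD R k1 k2 hf h
  have hline : ∀ v u, ¬ EllV D K v → P.N v u ≠ P.M v u →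
      c (tk Q (.l u (P.N v u) v)) (tk Q (.l u (P.M v u) v)) =
        (rscG Q f (rscF P f lam W) hF (tk Q (.l u (P.N v u) v)))⁻¹ *
          rscG Q f (rscF P f lam W) hF (tk Q (.l u (P.M v u) v)) := by
    intro v u hv hu
    have e1 : rscG Q f (rscF P f lam W) hF (tk Q (.l u (P.N v u) v)) = f v * lam v u :=
      rscF_l1 (f := f) (lam := lam) (W := W) (rsc_Ax hv hu)
    have hMu : P.M v u ≠ u := (P.hyp v hv).2.1 u
    have hadj := rsc_adj (P.fM v) hMu
    have hax : Ax P v (P.M v u) u :=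
      ⟨rsc_back (P.fN v) hadj hu, rfl, by
        rw [rsc_back (P.fN v) hadj hu]
        exact hMu.symm⟩
    have e2 : rscG Q f (rscF P f lam W) hF (tk Q (.l u (P.M v u) v)) =
        f v * lam v (P.M v u) := rscF_l2 (f := f) (lam := lam) (W := W) hax
    rw [e1, e2, l1 v u hv hu]
    group
  refine ⟨rscG Q f (rscF P f lam W) hF, ?_⟩
  rintro p q (h | h)
  · obtain ⟨x, y, u, h1, h2, h3, rfl, rfl⟩ := h
    rw [rscG_pos R hF h1 h3, rscG_pos R hF (K.symm _ _ h1) (rsc_onI_symm h3)]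
    have e1 := k1 x y u h1 h2 h3
    rw [hf x y h1] at e1
    unfold rscVal at e1
    have e2 : f y = f x * (W x y u * c (pos Q x y u) (pos Q y x u) * (W y x u)⁻¹) := by
      rw [← e1]; group
    rw [e2]
    group
  · have hh := h
    obtain ⟨v, u, h1, h2, ⟨rfl, rfl⟩ | ⟨rfl, rfl⟩⟩ := h
    · exact hline v u h1 h2
    · have e1 := hline v u h1 h2
      have e2 := hc1 _ _ (Or.inr hh : aadj Q _ _)
      have e3 : c (tk Q (.l u (P.M v u) v)) (tk Q (.l u (P.N v u) v)) =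
          (c (tk Q (.l u (P.N v u) v)) (tk Q (.l u (P.M v u) v)))⁻¹ :=
        eq_inv_of_mul_eq_one_left e2
      rw [e3, e1]
      group

end Pool.Agent.Helper93.HZ
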